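import Mathlib
import Pool.Agent.Helper60_AK.StmtA

set_option autoImplicit false

/-!
Squad AK: the operators on rapidly decreasing sequences as elements of an endomorphism ring.
-/

namespace Pool.Agent.AK.H39

open Complex

section basic

set_option linter.unusedSectionVars false

variable {V : Type*} [NormedAddCommGroup V] [NormedSpace ℂ V]

theorem rap_zero : Rap (0 : Z4 → V) := fun _ => ⟨0, fun k => by simp⟩

theorem rap_add {v w : Z4 → V} (hv : Rap v) (hw : Rap w) : Rap (v + w) := by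
  intro n
  obtain ⟨C, hC⟩ := hv n
  obtain ⟨D, hD⟩ := hw n
  refine ⟨C + D, fun k => ?_⟩
  have h0 : 0 ≤ Lam 1 k ^ n := pow_nonneg (Real.sqrt_nonneg _) _
  calc Lam 1 k ^ n * ‖(v + w) k‖ ≤ Lam 1 k ^ n * (‖v k‖ + ‖w k‖) :=
        mul_le_mul_of_nonneg_left (norm_add_le _ _) h0
    _ = Lam 1 k ^ n * ‖v k‖ + Lam 1 k ^ n * ‖w k‖ := by ring
    _ ≤ C + D := add_le_add (hC k) (hD k)

theorem rap_smul (c : ℂ) {v : Z4 → V} (hv : Rap v) : Rap (c • v) := by
  intro n
  obtain ⟨C, hC⟩ := hv n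
  refine ⟨‖c‖ * C, fun k => ?_⟩
  calc Lam 1 k ^ n * ‖(c • v) k‖ = ‖c‖ * (Lam 1 k ^ n * ‖v k‖) := by
        rw [Pi.smul_apply, norm_smul]; ring
    _ ≤ ‖c‖ * C := mul_le_mul_of_nonneg_left (hC k) (norm_nonneg _)

end basic

/-- The space of rapidly decreasing sequences. -/
def RS (V : Type*) [NormedAddCommGroup V] [NormedSpace ℂ V] : Submodule ℂ (Z4 → V) where
  carrier := {w | Rap w}
  zero_mem' := rap_zero
  add_mem' := fun hv hw => rap_add hv hw
  smul_mem' := fun c _ hv => rap_smul c hv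

/-- The space of rapidly decreasing sequences as a type. -/
def RT (V : Type*) [NormedAddCommGroup V] [NormedSpace ℂ V] : Type _ := RS V

noncomputable instance instRTg (V : Type*) [NormedAddCommGroup V] [NormedSpace ℂ V] :
    AddCommGroup (RT V) := inferInstanceAs (AddCommGroup (RS V))

noncomputable instance instRTm (V : Type*) [NormedAddCommGroup V] [NormedSpace ℂ V] :
    Module ℂ (RT V) := inferInstanceAs (Module ℂ (RS V))

/-- the underlying sequence. -/
def RT.v {V : Type*} [NormedAddCommGroup V] [NormedSpace ℂ V] (w : RT V) : Z4 → V :=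
  Subtype.val (p := fun x => x ∈ RS V) w

theorem RT.r {V : Type*} [NormedAddCommGroup V] [NormedSpace ℂ V] (w : RT V) : Rap w.v :=
  Subtype.property (p := fun x => x ∈ RS V) w

/-- bundling. -/
def RT.mk {V : Type*} [NormedAddCommGroup V] [NormedSpace ℂ V] (w : Z4 → V) (h : Rap w) :
    RT V := (⟨w, h⟩ : RS V)

section v

variable {V : Type*} [NormedAddCommGroup V] [NormedSpace ℂ V]

theorem RT.ext {v w : RT V} (h : v.v = w.v) : v = w := Subtype.ext h

@[simp] theorem v_mk (w : Z4 → V) (h : Rap w) : (RT.mk w h).v = w := rfl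

@[simp] theorem mk_v (w : RT V) (h : Rap w.v) : RT.mk w.v h = w := rfl

@[simp] theorem v_zero : (0 : RT V).v = 0 := rfl

@[simp] theorem v_add (v w : RT V) : (v + w).v = v.v + w.v := rfl

@[simp] theorem v_sub (v w : RT V) : (v - w).v = v.v - w.v := rfl

@[simp] theorem v_neg (v : RT V) : (-v).v = -v.v := rfl

@[simp] theorem v_smul (c : ℂ) (v : RT V) : (c • v).v = c • v.v := rfl

@[simp] theorem v_sum {ι : Type*} (s : Finset ι) (f : ι → RT V) :
    (∑ i ∈ s, f i).v = ∑ i ∈ s, (f i).v :=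
  Submodule.coe_sum (RS V) f s

end v

section ops

set_option linter.unusedSectionVars false

variable {V : Type} [NormedAddCommGroup V] [NormedSpace ℂ V] [CompleteSpace V]

/-- scalar convolution as a bilinear map. -/
noncomputable def Sop (h1 : A1Stmt) (V : Type) [NormedAddCommGroup V] [NormedSpace ℂ V]
    [CompleteSpace V] : RT ℂ →ₗ[ℂ] Module.End ℂ (RT V) :=
  LinearMap.mk₂ ℂ (fun a w => RT.mk (scv a.v w.v) (h1.1 V a.v w.v a.r w.r).1)
    (by
      intro a b w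
      apply RT.ext
      funext k
      show (∑' l, (a.v + b.v) (k - l) • w.v l) = (∑' l, a.v (k - l) • w.v l)
        + ∑' l, b.v (k - l) • w.v l
      rw [← ((h1.1 V a.v w.v a.r w.r).2 k).tsum_add ((h1.1 V b.v w.v b.r w.r).2 k)]
      refine tsum_congr fun l => ?_
      rw [Pi.add_apply, add_smul])
    (by
      intro c a w
      apply RT.ext
      funext k
      show (∑' l, (c • a.v) (k - l) • w.v l) = c • ∑' l, a.v (k - l) • w.v l
      rw [← tsum_const_smul'']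
      refine tsum_congr fun l => ?_
      rw [Pi.smul_apply, smul_assoc])
    (by
      intro a v w
      apply RT.ext
      funext k
      show (∑' l, a.v (k - l) • (v.v + w.v) l) = (∑' l, a.v (k - l) • v.v l)
        + ∑' l, a.v (k - l) • w.v l
      rw [← ((h1.1 V a.v v.v a.r v.r).2 k).tsum_add ((h1.1 V a.v w.v a.r w.r).2 k)]
      refine tsum_congr fun l => ?_
      rw [Pi.add_apply, smul_add])
    (by
      intro c a w
      apply RT.ext
      funext k
      show (∑' l, a.v (k - l) • (c • w.v) l) = c • ∑' l, a.v (k - l) • w.v l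
      rw [← tsum_const_smul'']
      refine tsum_congr fun l => ?_
      rw [Pi.smul_apply, smul_comm])

@[simp] theorem Sop_val (h1 : A1Stmt) (a : RT ℂ) (w : RT V) :
    (Sop h1 V a w).v = scv a.v w.v := rfl

/-- operator valued convolution as a bilinear map. -/
noncomputable def Cop (h1 : A1Stmt) (V : Type) [NormedAddCommGroup V] [NormedSpace ℂ V]
    [CompleteSpace V] : RT (V →L[ℂ] V) →ₗ[ℂ] Module.End ℂ (RT V) :=
  LinearMap.mk₂ ℂ (fun a w => RT.mk (cv a.v w.v) (h1.2.1 V a.v w.v a.r w.r).1)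
    (by
      intro a b w
      apply RT.ext
      funext k
      show (∑' l, ((a.v + b.v) (k - l)) (w.v l)) = (∑' l, (a.v (k - l)) (w.v l))
        + ∑' l, (b.v (k - l)) (w.v l)
      rw [← ((h1.2.1 V a.v w.v a.r w.r).2 k).tsum_add ((h1.2.1 V b.v w.v b.r w.r).2 k)]
      refine tsum_congr fun l => ?_
      rw [Pi.add_apply, add_apply])
    (by
      intro c a w
      apply RT.ext
      funext k
      show (∑' l, ((c • a.v) (k - l)) (w.v l)) = c • ∑' l, (a.v (k - l)) (w.v l)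
      rw [← tsum_const_smul'']
      refine tsum_congr fun l => ?_
      rw [Pi.smul_apply, smul_apply])
    (by
      intro a v w
      apply RT.ext
      funext k
      show (∑' l, (a.v (k - l)) ((v.v + w.v) l)) = (∑' l, (a.v (k - l)) (v.v l))
        + ∑' l, (a.v (k - l)) (w.v l)
      rw [← ((h1.2.1 V a.v v.v a.r v.r).2 k).tsum_add ((h1.2.1 V a.v w.v a.r w.r).2 k)]
      refine tsum_congr fun l => ?_
      rw [Pi.add_apply, map_add])
    (by
      intro c a w
      apply RT.ext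
      funext k
      show (∑' l, (a.v (k - l)) ((c • w.v) l)) = c • ∑' l, (a.v (k - l)) (w.v l)
      rw [← tsum_const_smul'']
      refine tsum_congr fun l => ?_
      rw [Pi.smul_apply, map_smul])

@[simp] theorem Cop_val (h1 : A1Stmt) (a : RT (V →L[ℂ] V)) (w : RT V) :
    (Cop h1 V a w).v = cv a.v w.v := rfl

/-- the derivative. -/
noncomputable def Dop (h1 : A1Stmt) (V : Type) [NormedAddCommGroup V] [NormedSpace ℂ V]
    (j : Fin 4) : Module.End ℂ (RT V) where
  toFun w := RT.mk (dj j w.v) (h1.2.2.1 V j w.v w.r)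
  map_add' v w := by
    apply RT.ext
    funext k
    show (2 * (Real.pi : ℂ) * Complex.I * ((k j : ℤ) : ℂ)) • (v.v + w.v) k
      = (2 * (Real.pi : ℂ) * Complex.I * ((k j : ℤ) : ℂ)) • v.v k
        + (2 * (Real.pi : ℂ) * Complex.I * ((k j : ℤ) : ℂ)) • w.v k
    rw [Pi.add_apply, smul_add]
  map_smul' c w := by
    apply RT.ext
    funext k
    show (2 * (Real.pi : ℂ) * Complex.I * ((k j : ℤ) : ℂ)) • (c • w.v) k
      = c • ((2 * (Real.pi : ℂ) * Complex.I * ((k j : ℤ) : ℂ)) • w.v k)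
    rw [Pi.smul_apply, smul_comm]

@[simp] theorem Dop_val (h1 : A1Stmt) (j : Fin 4) (w : RT V) :
    (Dop h1 V j w).v = dj j w.v := rfl

/-- the vector field. -/
noncomputable def Xop (h1 : A1Stmt) (V : Type) [NormedAddCommGroup V] [NormedSpace ℂ V]
    [CompleteSpace V] (a : Fin 4 → RT ℂ) : Module.End ℂ (RT V) :=
  ∑ j, Sop h1 V (a j) * Dop h1 V j

theorem Xop_apply (h1 : A1Stmt) (a : Fin 4 → RT ℂ) (w : RT V) :
    Xop h1 V a w = ∑ j, Sop h1 V (a j) (Dop h1 V j w) := by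
  rw [Xop, LinearMap.sum_apply]
  rfl

@[simp] theorem Xop_val (h1 : A1Stmt) (a : Fin 4 → RT ℂ) (w : RT V) :
    (Xop h1 V a w).v = vf (fun j => (a j).v) w.v := by
  rw [Xop_apply, v_sum]
  funext k
  rw [Finset.sum_apply]
  rfl

/-! ### Relations -/

theorem S_mul (h1 : A1Stmt) (h2 : A2Stmt) (a b : RT ℂ) :
    Sop h1 V a * Sop h1 V b = Sop h1 V (Sop h1 ℂ a b) := by
  apply LinearMap.ext
  intro w
  apply RT.ext
  exact h2.1 V a.v b.v w.v a.r b.r w.r

theorem S_comm0 (h1 : A1Stmt) (h2 : A2Stmt) (a b : RT ℂ) :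
    Sop h1 ℂ a b = Sop h1 ℂ b a :=
  RT.ext (h2.2.1 a.v b.v a.r b.r)

theorem S_comm (h1 : A1Stmt) (h2 : A2Stmt) (a b : RT ℂ) :
    Sop h1 V a * Sop h1 V b = Sop h1 V b * Sop h1 V a := by
  rw [S_mul h1 h2, S_mul h1 h2, S_comm0 h1 h2]

theorem D_S (h1 : A1Stmt) (h2 : A2Stmt) (j : Fin 4) (a : RT ℂ) :
    Dop h1 V j * Sop h1 V a = Sop h1 V (Dop h1 ℂ j a) + Sop h1 V a * Dop h1 V j := by
  apply LinearMap.ext
  intro w
  apply RT.ext
  exact h2.2.2.1 V j a.v w.v a.r w.r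

theorem D_C (h1 : A1Stmt) (h2 : A2Stmt) (j : Fin 4) (a : RT (V →L[ℂ] V)) :
    Dop h1 V j * Cop h1 V a = Cop h1 V (Dop h1 (V →L[ℂ] V) j a)
      + Cop h1 V a * Dop h1 V j := by
  apply LinearMap.ext
  intro w
  apply RT.ext
  exact h2.2.2.2.1 V j a.v w.v a.r w.r

theorem C_S (h1 : A1Stmt) (h2 : A2Stmt) (M : RT (V →L[ℂ] V)) (a : RT ℂ) :
    Cop h1 V M * Sop h1 V a = Sop h1 V a * Cop h1 V M := by
  apply LinearMap.ext
  intro w
  apply RT.ext
  exact h2.2.2.2.2.1 V M.v a.v w.v M.r a.r w.r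

theorem D_D (h1 : A1Stmt) (h2 : A2Stmt) (i j : Fin 4) :
    Dop h1 V i * Dop h1 V j = Dop h1 V j * Dop h1 V i := by
  apply LinearMap.ext
  intro w
  apply RT.ext
  exact h2.2.2.2.2.2.2.2 i j V w.v

/-- order zero operators. -/
def IsC (h1 : A1Stmt) (T : Module.End ℂ (RT V)) : Prop := ∃ M, T = Cop h1 V M

theorem IsC.add {h1 : A1Stmt} {T T' : Module.End ℂ (RT V)} (h : IsC h1 T) (h' : IsC h1 T') :
    IsC h1 (T + T') := by
  obtain ⟨M, rfl⟩ := h
  obtain ⟨M', rfl⟩ := h'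
  exact ⟨M + M', (map_add _ _ _).symm⟩

theorem IsC.neg {h1 : A1Stmt} {T : Module.End ℂ (RT V)} (h : IsC h1 T) :
    IsC h1 (-T) := by
  obtain ⟨M, rfl⟩ := h
  exact ⟨-M, (map_neg _ _).symm⟩

theorem IsC.sub {h1 : A1Stmt} {T T' : Module.End ℂ (RT V)} (h : IsC h1 T) (h' : IsC h1 T') :
    IsC h1 (T - T') := by
  obtain ⟨M, rfl⟩ := h
  obtain ⟨M', rfl⟩ := h'
  exact ⟨M - M', (map_sub _ _ _).symm⟩

theorem IsC.smul {h1 : A1Stmt} {T : Module.End ℂ (RT V)} (c : ℂ) (h : IsC h1 T) :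
    IsC h1 (c • T) := by
  obtain ⟨M, rfl⟩ := h
  exact ⟨c • M, (map_smul _ _ _).symm⟩

theorem IsC.mul {h1 : A1Stmt} (h2 : A2Stmt) {T T' : Module.End ℂ (RT V)} (h : IsC h1 T)
    (h' : IsC h1 T') : IsC h1 (T * T') := by
  obtain ⟨M, rfl⟩ := h
  obtain ⟨M', rfl⟩ := h'
  obtain ⟨M2, hM2, e⟩ := h2.2.2.2.2.2.1 V M.v M'.v M.r M'.r
  refine ⟨RT.mk M2 hM2, ?_⟩
  apply LinearMap.ext
  intro w
  apply RT.ext
  exact e w.v w.r

theorem isC_S (h1 : A1Stmt) (a : RT ℂ) : IsC h1 (Sop h1 V a) := by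
  refine ⟨RT.mk _ (h1.2.2.2.2.2.2 V a.v a.r), ?_⟩
  apply LinearMap.ext
  intro w
  apply RT.ext
  funext k
  show (∑' l, a.v (k - l) • w.v l) = ∑' l, (a.v (k - l) • ContinuousLinearMap.id ℂ V) (w.v l)
  refine tsum_congr fun l => ?_
  simp

theorem isC_C (h1 : A1Stmt) (M : RT (V →L[ℂ] V)) : IsC h1 (Cop h1 V M) := ⟨M, rfl⟩

theorem isC_zero (h1 : A1Stmt) : IsC h1 (0 : Module.End ℂ (RT V)) := ⟨0, (map_zero _).symm⟩

theorem isC_sum (h1 : A1Stmt) {ι : Type*} (s : Finset ι) (T : ι → Module.End ℂ (RT V))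
    (h : ∀ i, IsC h1 (T i)) : IsC h1 (∑ i ∈ s, T i) := by
  classical
  induction s using Finset.induction_on with
  | empty => simpa using isC_zero h1
  | insert i s hi ih =>
      rw [Finset.sum_insert hi]
      exact (h i).add ih

/-- the commutator of a vector field with a function. -/
theorem X_S (h1 : A1Stmt) (h2 : A2Stmt) (a : Fin 4 → RT ℂ) (g : RT ℂ) :
    Xop h1 V a * Sop h1 V g = Sop h1 V (Xop h1 ℂ a g) + Sop h1 V g * Xop h1 V a := by
  rw [Xop_apply, map_sum, Xop, Finset.sum_mul, Finset.mul_sum, ← Finset.sum_add_distrib]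
  refine Finset.sum_congr rfl fun j _ => ?_
  rw [mul_assoc, D_S h1 h2, mul_add, S_mul h1 h2, ← mul_assoc, S_comm h1 h2, mul_assoc]

/-- the commutator of a vector field with an order zero operator is of order zero. -/
theorem X_C (h1 : A1Stmt) (h2 : A2Stmt) (a : Fin 4 → RT ℂ) {T : Module.End ℂ (RT V)}
    (hT : IsC h1 T) : IsC h1 (Xop h1 V a * T - T * Xop h1 V a) := by
  obtain ⟨M, rfl⟩ := hT
  have e : Xop h1 V a * Cop h1 V M - Cop h1 V M * Xop h1 V a
      = ∑ j, Sop h1 V (a j) * Cop h1 V (Dop h1 (V →L[ℂ] V) j M) := by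
    rw [Xop, Finset.sum_mul, Finset.mul_sum, ← Finset.sum_sub_distrib]
    refine Finset.sum_congr rfl fun j _ => ?_
    rw [mul_assoc, D_C h1 h2, mul_add, ← mul_assoc (Cop h1 V M), C_S h1 h2, mul_assoc]
    abel
  rw [e]
  exact isC_sum h1 _ _ fun j => (isC_S h1 _).mul h2 (isC_C h1 _)

/-- the commutator of two vector fields. -/
theorem X_X (h1 : A1Stmt) (h2 : A2Stmt) (a b : Fin 4 → RT ℂ) :
    Xop h1 V a * Xop h1 V b - Xop h1 V b * Xop h1 V a
      = ∑ j, Sop h1 V (Xop h1 ℂ a (b j) - Xop h1 ℂ b (a j)) * Dop h1 V j := by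
  have key : ∀ a b : Fin 4 → RT ℂ, Xop h1 V a * Xop h1 V b
      = (∑ j, Sop h1 V (Xop h1 ℂ a (b j)) * Dop h1 V j)
        + ∑ j, ∑ i, (Sop h1 V (a i) * Sop h1 V (b j)) * (Dop h1 V i * Dop h1 V j) := by
    intro a b
    have : Xop h1 V a * Xop h1 V b = ∑ j, (Xop h1 V a * Sop h1 V (b j)) * Dop h1 V j := by
      conv_lhs => rw [Xop.eq_def h1 V b]
      rw [Finset.mul_sum]
      exact Finset.sum_congr rfl fun j _ => by rw [mul_assoc]
    rw [this, ← Finset.sum_add_distrib]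
    refine Finset.sum_congr rfl fun j _ => ?_
    rw [X_S h1 h2, add_mul]
    congr 1
    rw [Xop, Finset.mul_sum, Finset.sum_mul]
    refine Finset.sum_congr rfl fun i _ => ?_
    rw [← mul_assoc (Sop h1 V (b j)), S_comm h1 h2 (b j) (a i), mul_assoc (_ * _)]
  rw [key a b, key b a]
  have sw : (∑ j, ∑ i, (Sop h1 V (b i) * Sop h1 V (a j)) * (Dop h1 V i * Dop h1 V j))
      = ∑ j, ∑ i, (Sop h1 V (a i) * Sop h1 V (b j)) * (Dop h1 V i * Dop h1 V j) := by
    rw [Finset.sum_comm]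
    refine Finset.sum_congr rfl fun i _ => Finset.sum_congr rfl fun j _ => ?_
    rw [S_comm h1 h2 (b i) (a j), D_D h1 h2 i j]
  rw [sw, add_sub_add_right_eq_sub, ← Finset.sum_sub_distrib]
  refine Finset.sum_congr rfl fun j _ => ?_
  rw [map_sub, sub_mul]

end ops

end Pool.Agent.AK.H39
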