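import Mathlib
import Pool.Agent.Helper39_AK.Base

set_option autoImplicit false

/-!
Squad AK, module A7: the commutator [Q_t, Q_t^*].
-/

namespace Pool.Agent.AK.H39

open Complex

/-- Convolution with a multiple of the unit sequence. -/
theorem S_delta (h1 : A1Stmt) {V : Type} [NormedAddCommGroup V] [NormedSpace ℂ V]
    [CompleteSpace V] (c : ℂ) (δ : RT ℂ) (hδ : ∀ k, δ.v k = if k = 0 then c else 0) :
    Sop h1 V δ = c • (1 : Module.End ℂ (RT V)) := by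
  apply LinearMap.ext
  intro w
  apply RT.ext
  funext k
  show (∑' l, δ.v (k - l) • w.v l) = c • w.v k
  rw [tsum_eq_single k]
  · rw [sub_self, hδ, if_pos rfl]
  · intro l hl
    rw [hδ, if_neg (fun h => hl (sub_eq_zero.mp h).symm), zero_smul]

theorem br_id {R : Type*} [Ring R] (X Y F G M Z : R) :
    (X + F + M) * (-Y + G + Z) - (-Y + G + Z) * (X + F + M)
      = -(X * Y - Y * X) + (X * G - G * X) + (Y * F - F * Y) + (X * Z - Z * X)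
        + (Y * M - M * Y) + (F * G - G * F) + (F * Z - Z * F) + (M * G - G * M)
        + (M * Z - Z * M) := by
  noncomm_ring

section data

variable {N : ℕ} (h1 : A1Stmt) (D : TData N)

/-- bundled coefficients. -/
noncomputable def ba : Fin 4 → RT ℂ := fun j => RT.mk (D.a j) (D.ra j)

/-- bundled conjugate coefficients. -/
noncomputable def bb : Fin 4 → RT ℂ := fun j => RT.mk (stS (D.a j)) (h1.2.2.2.1 _ (D.ra j))

/-- bundled phi. -/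
noncomputable def bφ : RT ℂ := RT.mk D.φ D.rφ

/-- bundled gamma. -/
noncomputable def bγ : RT ℂ := RT.mk D.γ D.rγ

/-- bundled alpha. -/
noncomputable def bα : RT ℂ := RT.mk D.α D.rα

/-- bundled conjugate of alpha. -/
noncomputable def bα' : RT ℂ := RT.mk (stS D.α) (h1.2.2.2.1 _ D.rα)

/-- bundled beta. -/
noncomputable def bβ : RT ℂ := RT.mk D.β D.rβ

/-- bundled conjugate of beta. -/
noncomputable def bβ' : RT ℂ := RT.mk (stS D.β) (h1.2.2.2.1 _ D.rβ)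

/-- bundled chi. -/
noncomputable def bχ : RT ℂ := RT.mk D.χ D.rχ

/-- bundled pi1. -/
noncomputable def bp1 : RT ℂ := RT.mk D.π1 D.rπ1

/-- bundled pi2. -/
noncomputable def bp2 : RT ℂ := RT.mk D.π2 D.rπ2

/-- bundled tau. -/
noncomputable def bτ : Fin 4 → RT ℂ := fun j => RT.mk (D.τ j) (D.rτ j)

/-- bundled e. -/
noncomputable def be : Fin 4 → RT ℂ := fun j => RT.mk (D.e j) (D.re j)

/-- bundled M. -/
noncomputable def bM : RT (EuclideanSpace ℂ (Fin N) →L[ℂ] EuclideanSpace ℂ (Fin N)) := RT.mk D.M D.rM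

/-- bundled adjoint of M. -/
noncomputable def bM' : RT (EuclideanSpace ℂ (Fin N) →L[ℂ] EuclideanSpace ℂ (Fin N)) :=
  RT.mk (stM D.M) (h1.2.2.2.2.1 N D.M D.rM)

/-- the order zero part of the adjoint. -/
noncomputable def bz0 : Module.End ℂ (RT (EuclideanSpace ℂ (Fin N))) :=
  -(Sop h1 (EuclideanSpace ℂ (Fin N)) (∑ j, Dop h1 ℂ j (bb h1 D j)))
    + Cop h1 (EuclideanSpace ℂ (Fin N)) (bM' h1 D)

/-- bundled Q. -/
noncomputable def bQ (t : ℝ) : Module.End ℂ (RT (EuclideanSpace ℂ (Fin N))) :=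
  Xop h1 _ (ba D) + ((t / 2 : ℝ) : ℂ) • Sop h1 _ (Xop h1 ℂ (ba D) (bφ D))
    + Cop h1 _ (bM D)

/-- bundled adjoint of Q. -/
noncomputable def bQs (t : ℝ) : Module.End ℂ (RT (EuclideanSpace ℂ (Fin N))) :=
  -(Xop h1 _ (bb h1 D)) + ((t / 2 : ℝ) : ℂ) • Sop h1 _ (Xop h1 ℂ (bb h1 D) (bφ D))
    + bz0 h1 D

theorem bQ_val (t : ℝ) (w : RT (EuclideanSpace ℂ (Fin N))) :
    (bQ h1 D t w).v = D.Q t w.v := by
  have e : bQ h1 D t w = Xop h1 _ (ba D) w + ((t / 2 : ℝ) : ℂ) •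
      Sop h1 _ (Xop h1 ℂ (ba D) (bφ D)) w + Cop h1 _ (bM D) w := rfl
  rw [e]
  simp only [v_add, v_smul, Xop_val, Sop_val, Cop_val]
  rfl

theorem bQs_val (t : ℝ) (w : RT (EuclideanSpace ℂ (Fin N))) :
    (bQs h1 D t w).v = D.Qs t w.v := by
  have e : bQs h1 D t w = -(Xop h1 _ (bb h1 D) w) + ((t / 2 : ℝ) : ℂ) •
      Sop h1 _ (Xop h1 ℂ (bb h1 D) (bφ D)) w +
      (-(Sop h1 _ (∑ j, Dop h1 ℂ j (bb h1 D j)) w) + Cop h1 _ (bM' h1 D) w) := rfl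
  rw [e]
  simp only [v_add, v_smul, v_neg, Xop_val, Sop_val, Cop_val, v_sum, Dop_val]
  have e1 : (∑ j, dj j (bb h1 D j).v) = fun l => ∑ j, dj j (stS (D.a j)) l := by
    funext l
    rw [Finset.sum_apply]
    rfl
  rw [e1]
  unfold TData.Qs
  funext k
  simp only [Pi.add_apply, Pi.neg_apply, Pi.smul_apply]
  have e2 : ∀ j, (bb h1 D j).v = stS (D.a j) := fun _ => rfl
  have e3 : (bφ D).v = D.φ := rfl
  have e4 : (bM' h1 D).v = stM D.M := rfl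
  simp only [e2, e3, e4]
  abel

/-- the bundled form of the commutator formula. -/
theorem a7_op (h2 : A2Stmt) :
    ∃ Z : Module.End ℂ (RT (EuclideanSpace ℂ (Fin N))), IsC h1 Z ∧ ∀ t : ℝ,
      bQ h1 D t * bQs h1 D t - bQs h1 D t * bQ h1 D t =
        Sop h1 _ (bγ D) * Xop h1 _ (bτ D)
        + Sop h1 _ (bα D) * bQs h1 D t
        + Sop h1 _ (bα' h1 D) * bQ h1 D t
        + ((t / 2 : ℝ) : ℂ) • ((2 * (D.c0 : ℂ)) • (1 : Module.End ℂ _)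
          + Sop h1 _ (bβ D) * Sop h1 _ (bβ' h1 D)
          + Sop h1 _ (bγ D) * Sop h1 _ (bp1 D)
          + Sop h1 _ (bχ D) * Sop h1 _ (bp2 D))
        - Sop h1 _ (bχ D) * Xop h1 _ (be D) + Z := by
  have cM : IsC h1 (Cop h1 _ (bM D)) := isC_C h1 _
  have cZ0 : IsC h1 (bz0 h1 D) := (isC_S h1 _).neg.add (isC_C h1 _)
  -- the commutator of the fields
  have hc : ∀ j, Xop h1 ℂ (ba D) (bb h1 D j) - Xop h1 ℂ (bb h1 D) (ba D j)
      = -(Sop h1 ℂ (bγ D) (bτ D j)) + Sop h1 ℂ (bα D) (bb h1 D j)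
        - Sop h1 ℂ (bα' h1 D) (ba D j) + Sop h1 ℂ (bχ D) (be D j) := by
    intro j
    apply RT.ext
    simp only [v_add, v_sub, v_neg, Xop_val, Sop_val]
    funext k
    exact D.comm j k
  have hXY : Xop h1 (EuclideanSpace ℂ (Fin N)) (ba D) * Xop h1 _ (bb h1 D)
      - Xop h1 _ (bb h1 D) * Xop h1 _ (ba D)
      = -(Sop h1 _ (bγ D) * Xop h1 _ (bτ D)) + Sop h1 _ (bα D) * Xop h1 _ (bb h1 D)
        - Sop h1 _ (bα' h1 D) * Xop h1 _ (ba D)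
      + Sop h1 _ (bχ D) * Xop h1 _ (be D) := by
    rw [X_X h1 h2]
    simp only [hc]
    simp only [Xop, Finset.mul_sum]
    rw [← Finset.sum_neg_distrib, ← Finset.sum_add_distrib, ← Finset.sum_sub_distrib,
      ← Finset.sum_add_distrib]
    refine Finset.sum_congr rfl fun j _ => ?_
    simp only [map_add, map_sub, map_neg, ← S_mul h1 h2, add_mul, sub_mul, neg_mul, mul_assoc]
  -- positivity
  have hpos : Sop h1 (EuclideanSpace ℂ (Fin N)) (Xop h1 ℂ (ba D) (Xop h1 ℂ (bb h1 D) (bφ D)))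
      + Sop h1 _ (Xop h1 ℂ (bb h1 D) (Xop h1 ℂ (ba D) (bφ D)))
      = Sop h1 _ (bα D) * Sop h1 _ (Xop h1 ℂ (bb h1 D) (bφ D))
        + Sop h1 _ (bα' h1 D) * Sop h1 _ (Xop h1 ℂ (ba D) (bφ D))
        + ((2 * (D.c0 : ℂ)) • (1 : Module.End ℂ _) + Sop h1 _ (bβ D) * Sop h1 _ (bβ' h1 D)
        + Sop h1 _ (bγ D) * Sop h1 _ (bp1 D) + Sop h1 _ (bχ D) * Sop h1 _ (bp2 D)) := by
    have hδ := S_delta h1 (V := EuclideanSpace ℂ (Fin N)) (2 * (D.c0 : ℂ))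
      (Xop h1 ℂ (ba D) (Xop h1 ℂ (bb h1 D) (bφ D)) + Xop h1 ℂ (bb h1 D)
        (Xop h1 ℂ (ba D) (bφ D)) - Sop h1 ℂ (bα D) (Xop h1 ℂ (bb h1 D) (bφ D))
        - Sop h1 ℂ (bα' h1 D) (Xop h1 ℂ (ba D) (bφ D))
        - (Sop h1 ℂ (bβ D) (bβ' h1 D) + Sop h1 ℂ (bγ D) (bp1 D) + Sop h1 ℂ (bχ D) (bp2 D))) (by
      intro k
      have hk := D.pos k
      simp only [v_add, v_sub, Xop_val, Sop_val, Pi.add_apply, Pi.sub_apply]
      have e1 : ∀ j, (ba D j).v = D.a j := fun _ => rfl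
      have e2 : ∀ j, (bb h1 D j).v = stS (D.a j) := fun _ => rfl
      have e3 : (bφ D).v = D.φ := rfl
      have e4 : (bα D).v = D.α := rfl
      have e5 : (bα' h1 D).v = stS D.α := rfl
      have e6 : (bβ D).v = D.β := rfl
      have e7 : (bβ' h1 D).v = stS D.β := rfl
      have e8 : (bγ D).v = D.γ := rfl
      have e9 : (bχ D).v = D.χ := rfl
      have e10 : (bp1 D).v = D.π1 := rfl
      have e11 : (bp2 D).v = D.π2 := rfl
      simp only [e1, e2, e3, e4, e5, e6, e7, e8, e9, e10, e11]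
      rw [hk]
      ring)
    simp only [map_add, map_sub, ← S_mul h1 h2] at hδ
    rw [← hδ]
    abel
  refine ⟨(Xop h1 _ (ba D) * bz0 h1 D - bz0 h1 D * Xop h1 _ (ba D))
    + (Xop h1 _ (bb h1 D) * Cop h1 _ (bM D) - Cop h1 _ (bM D) * Xop h1 _ (bb h1 D))
    + (Cop h1 _ (bM D) * bz0 h1 D - bz0 h1 D * Cop h1 _ (bM D)) - Sop h1 _ (bα D) * bz0 h1 D
    - Sop h1 _ (bα' h1 D) * Cop h1 _ (bM D), ?_, ?_⟩
  · refine IsC.sub (IsC.sub (IsC.add (IsC.add (X_C h1 h2 _ cZ0) (X_C h1 h2 _ cM)) ?_) ?_) ?_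
    · exact (cM.mul h2 cZ0).sub (cZ0.mul h2 cM)
    · exact (isC_S h1 _).mul h2 cZ0
    · exact (isC_S h1 _).mul h2 cM
  · intro t
    have k1 : Xop h1 (EuclideanSpace ℂ (Fin N)) (ba D) *
          (((t / 2 : ℝ) : ℂ) • Sop h1 _ (Xop h1 ℂ (bb h1 D) (bφ D)))
        - (((t / 2 : ℝ) : ℂ) • Sop h1 _ (Xop h1 ℂ (bb h1 D) (bφ D))) * Xop h1 _ (ba D)
        = ((t / 2 : ℝ) : ℂ) • Sop h1 _ (Xop h1 ℂ (ba D) (Xop h1 ℂ (bb h1 D) (bφ D))) := by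
      rw [mul_smul_comm, smul_mul_assoc, X_S h1 h2, smul_add, add_sub_cancel_right]
    have k2 : Xop h1 (EuclideanSpace ℂ (Fin N)) (bb h1 D) *
          (((t / 2 : ℝ) : ℂ) • Sop h1 _ (Xop h1 ℂ (ba D) (bφ D)))
        - (((t / 2 : ℝ) : ℂ) • Sop h1 _ (Xop h1 ℂ (ba D) (bφ D))) * Xop h1 _ (bb h1 D)
        = ((t / 2 : ℝ) : ℂ) • Sop h1 _ (Xop h1 ℂ (bb h1 D) (Xop h1 ℂ (ba D) (bφ D))) := by
      rw [mul_smul_comm, smul_mul_assoc, X_S h1 h2, smul_add, add_sub_cancel_right]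
    have k3 : (((t / 2 : ℝ) : ℂ) • Sop h1 (EuclideanSpace ℂ (Fin N))
          (Xop h1 ℂ (ba D) (bφ D))) *
          (((t / 2 : ℝ) : ℂ) • Sop h1 _ (Xop h1 ℂ (bb h1 D) (bφ D)))
        - (((t / 2 : ℝ) : ℂ) • Sop h1 _ (Xop h1 ℂ (bb h1 D) (bφ D))) *
          (((t / 2 : ℝ) : ℂ) • Sop h1 _ (Xop h1 ℂ (ba D) (bφ D))) = 0 := by
      rw [smul_mul_smul_comm, smul_mul_smul_comm,
        S_comm h1 h2 (Xop h1 ℂ (ba D) (bφ D)), sub_self]
    have cSM : ∀ (p : RT ℂ) (T : Module.End ℂ (RT (EuclideanSpace ℂ (Fin N)))), IsC h1 T →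
        (((t / 2 : ℝ) : ℂ) • Sop h1 _ p) * T - T * (((t / 2 : ℝ) : ℂ) • Sop h1 _ p) = 0 := by
      rintro p _ ⟨M', rfl⟩
      rw [smul_mul_assoc, mul_smul_comm, C_S h1 h2, sub_self]
    have cSM' : ∀ (p : RT ℂ) (T : Module.End ℂ (RT (EuclideanSpace ℂ (Fin N)))), IsC h1 T →
        T * (((t / 2 : ℝ) : ℂ) • Sop h1 _ p) - (((t / 2 : ℝ) : ℂ) • Sop h1 _ p) * T = 0 := by
      intro p T hT
      rw [← neg_sub, cSM p T hT, neg_zero]
    have hs : ((t / 2 : ℝ) : ℂ) • Sop h1 (EuclideanSpace ℂ (Fin N))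
          (Xop h1 ℂ (ba D) (Xop h1 ℂ (bb h1 D) (bφ D)))
        + ((t / 2 : ℝ) : ℂ) • Sop h1 _ (Xop h1 ℂ (bb h1 D) (Xop h1 ℂ (ba D) (bφ D)))
        = ((t / 2 : ℝ) : ℂ) • (Sop h1 _ (bα D) * Sop h1 _ (Xop h1 ℂ (bb h1 D) (bφ D)))
        + ((t / 2 : ℝ) : ℂ) • (Sop h1 _ (bα' h1 D) * Sop h1 _ (Xop h1 ℂ (ba D) (bφ D)))
        + ((t / 2 : ℝ) : ℂ) • ((2 * (D.c0 : ℂ)) • (1 : Module.End ℂ _)
          + Sop h1 _ (bβ D) * Sop h1 _ (bβ' h1 D)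
          + Sop h1 _ (bγ D) * Sop h1 _ (bp1 D)
          + Sop h1 _ (bχ D) * Sop h1 _ (bp2 D)) := by
      rw [← smul_add, hpos, smul_add, smul_add]
    rw [bQ, bQs, br_id, hXY, k1, k2, k3, cSM _ _ cZ0, cSM' _ _ cM,
      add_assoc (-_) (((t / 2 : ℝ) : ℂ) • _), hs]
    simp only [mul_add, mul_neg, mul_smul_comm]
    abel

end data

theorem a7 (h1 : A1Stmt) (h2 : A2Stmt) : A7Stmt := by
  intro N D
  obtain ⟨Z, ⟨M, rfl⟩, hZ⟩ := a7_op h1 D h2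
  refine ⟨M.v, M.r, fun t w hw k => ?_⟩
  have h := congrArg (fun T : Module.End ℂ (RT (EuclideanSpace ℂ (Fin N))) =>
    (T (RT.mk w hw)).v k) (hZ t)
  have e1 : ((bQ h1 D t * bQs h1 D t - bQs h1 D t * bQ h1 D t :
      Module.End ℂ (RT (EuclideanSpace ℂ (Fin N)))) (RT.mk w hw)).v k
      = D.Q t (D.Qs t w) k - D.Qs t (D.Q t w) k := by
    have : (bQ h1 D t * bQs h1 D t - bQs h1 D t * bQ h1 D t :
      Module.End ℂ (RT (EuclideanSpace ℂ (Fin N)))) (RT.mk w hw)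
      = bQ h1 D t (bQs h1 D t (RT.mk w hw)) - bQs h1 D t (bQ h1 D t (RT.mk w hw)) := rfl
    rw [this, v_sub, bQ_val, bQs_val, bQs_val, bQ_val]
    rfl
  have e2 : (((Sop h1 _ (bγ D) * Xop h1 _ (bτ D)
        + Sop h1 _ (bα D) * bQs h1 D t
        + Sop h1 _ (bα' h1 D) * bQ h1 D t
        + ((t / 2 : ℝ) : ℂ) • ((2 * (D.c0 : ℂ)) • (1 : Module.End ℂ _)
          + Sop h1 _ (bβ D) * Sop h1 _ (bβ' h1 D)
          + Sop h1 _ (bγ D) * Sop h1 _ (bp1 D)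
          + Sop h1 _ (bχ D) * Sop h1 _ (bp2 D))
        - Sop h1 _ (bχ D) * Xop h1 _ (be D) + Cop h1 _ M :
          Module.End ℂ (RT (EuclideanSpace ℂ (Fin N))))) (RT.mk w hw))
      = Sop h1 _ (bγ D) (Xop h1 _ (bτ D) (RT.mk w hw))
        + Sop h1 _ (bα D) (bQs h1 D t (RT.mk w hw))
        + Sop h1 _ (bα' h1 D) (bQ h1 D t (RT.mk w hw))
        + ((t / 2 : ℝ) : ℂ) • ((2 * (D.c0 : ℂ)) • (RT.mk w hw)
          + Sop h1 _ (bβ D) (Sop h1 _ (bβ' h1 D) (RT.mk w hw))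
          + Sop h1 _ (bγ D) (Sop h1 _ (bp1 D) (RT.mk w hw))
          + Sop h1 _ (bχ D) (Sop h1 _ (bp2 D) (RT.mk w hw)))
        - Sop h1 _ (bχ D) (Xop h1 _ (be D) (RT.mk w hw)) + Cop h1 _ M (RT.mk w hw) := rfl
  rw [← e1]
  refine h.trans ?_
  show (_ : RT (EuclideanSpace ℂ (Fin N))).v k = _
  rw [e2]
  simp only [v_add, v_sub, v_smul, Sop_val, Cop_val, Xop_val, bQ_val, bQs_val, v_mk,
    Pi.add_apply, Pi.sub_apply, Pi.smul_apply]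
  rfl

end Pool.Agent.AK.H39
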