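import Mathlib
import Pool.Agent.Helper39_AK.A7

set_option autoImplicit false

/-!
Squad AK, module A8: the weighted L^2 estimate.
-/

namespace Pool.Agent.AK.H39

open Complex

section pairing

variable {V : Type} [NormedAddCommGroup V] [InnerProductSpace ℂ V] [CompleteSpace V]

set_option linter.unusedSectionVars false

theorem ip_summable (h1 : A1Stmt) (v w : RT V) :
    Summable fun k => inner ℂ (v.v k) (w.v k) := by
  obtain ⟨C, hC⟩ := w.r 0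
  have hs := (h1.2.2.2.2.2.1 V 1 0 v.v le_rfl v.r).2.1
  simp only [zpow_zero, one_mul] at hs
  refine Summable.of_norm_bounded (hs.mul_left C) fun k => ?_
  have hk := hC k
  rw [pow_zero, one_mul] at hk
  calc ‖inner ℂ (v.v k) (w.v k)‖ ≤ ‖v.v k‖ * ‖w.v k‖ := norm_inner_le_norm _ _
    _ ≤ ‖v.v k‖ * C := mul_le_mul_of_nonneg_left hk (norm_nonneg _)
    _ = C * ‖v.v k‖ := mul_comm _ _

/-- the pairing with w as an additive map. -/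
noncomputable def ipL (h1 : A1Stmt) (w : RT V) : RT V →+ ℂ where
  toFun v := ip v.v w.v
  map_zero' := by
    show (∑' k, inner ℂ ((0 : RT V).v k) (w.v k)) = 0
    simp
  map_add' v v' := by
    show (∑' k, inner ℂ ((v + v').v k) (w.v k)) = (∑' k, inner ℂ (v.v k) (w.v k))
      + ∑' k, inner ℂ (v'.v k) (w.v k)
    rw [← (ip_summable h1 v w).tsum_add (ip_summable h1 v' w)]
    refine tsum_congr fun k => ?_
    rw [v_add, Pi.add_apply, inner_add_left]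

theorem ipL_def (h1 : A1Stmt) (v w : RT V) : ipL h1 w v = ip v.v w.v := rfl

theorem ipL_smul (h1 : A1Stmt) (c : ℂ) (v w : RT V) :
    ipL h1 w (c • v) = (starRingEnd ℂ) c * ipL h1 w v := by
  show (∑' k, inner ℂ ((c • v).v k) (w.v k)) = (starRingEnd ℂ) c *
    ∑' k, inner ℂ (v.v k) (w.v k)
  rw [← tsum_mul_left]
  refine tsum_congr fun k => ?_
  rw [v_smul, Pi.smul_apply, inner_smul_left]

theorem ipL_smul_re (h1 : A1Stmt) (c : ℝ) (v w : RT V) :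
    (ipL h1 w ((c : ℂ) • v)).re = c * (ipL h1 w v).re := by
  rw [ipL_smul, Complex.conj_ofReal, Complex.re_ofReal_mul]

theorem ip_re_symm (h1 : A1Stmt) (v w : RT V) : (ipL h1 w v).re = (ipL h1 v w).re := by
  have e : ∀ v w : RT V, (ipL h1 w v).re = ∑' k, (inner ℂ (v.v k) (w.v k)).re := by
    intro v w
    exact Complex.reCLM.map_tsum (ip_summable h1 v w)
  rw [e, e]
  refine tsum_congr fun k => ?_
  rw [← inner_conj_symm, Complex.conj_re]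

theorem hn_nonneg (A : ℝ) (s : ℤ) (w : Z4 → V) : 0 ≤ hn A s w := Real.sqrt_nonneg _

theorem Lam_pos {A : ℝ} (hA : 1 ≤ A) (k : Z4) : 0 < Lam A k := by
  apply Real.sqrt_pos.mpr
  have : 0 ≤ sq4 k := Finset.sum_nonneg fun i _ => sq_nonneg _
  linarith

theorem Lam_sq {A : ℝ} (hA : 1 ≤ A) (k : Z4) : Lam A k ^ 2 = A + sq4 k := by
  have : 0 ≤ sq4 k := Finset.sum_nonneg fun i _ => sq_nonneg _
  exact Real.sq_sqrt (by linarith)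

theorem hn_le_of_pt {A c : ℝ} (h1 : A1Stmt) (hA : 1 ≤ A) (hc : 0 ≤ c) (s s' : ℤ) (v w : RT V)
    (h : ∀ k, Lam A k ^ (2 * s) * ‖v.v k‖ ^ 2 ≤ c ^ 2 * (Lam A k ^ (2 * s') * ‖w.v k‖ ^ 2)) :
    hn A s v.v ≤ c * hn A s' w.v := by
  unfold hn
  have e : c * √(∑' k, Lam A k ^ (2 * s') * ‖w.v k‖ ^ 2)
      = √(c ^ 2 * ∑' k, Lam A k ^ (2 * s') * ‖w.v k‖ ^ 2) := by
    rw [Real.sqrt_mul (sq_nonneg c), Real.sqrt_sq hc]
  rw [e, ← tsum_mul_left]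
  apply Real.sqrt_le_sqrt
  exact Summable.tsum_le_tsum h (h1.2.2.2.2.2.1 V A s v.v hA v.r).2.2
    ((h1.2.2.2.2.2.1 V A s' w.v hA w.r).2.2.mul_left _)

theorem hn_D (h1 : A1Stmt) {A : ℝ} (hA : 1 ≤ A) (j : Fin 4) (u : RT V) :
    hn A 0 (Dop h1 V j u).v ≤ (2 * Real.pi) * hn A 1 u.v := by
  refine hn_le_of_pt h1 hA (by positivity) 0 1 _ _ fun k => ?_
  have hk : ((k j : ℤ) : ℝ) ^ 2 ≤ Lam A k ^ 2 := by
    rw [Lam_sq hA]
    have : ((k j : ℤ) : ℝ) ^ 2 ≤ sq4 k :=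
      Finset.single_le_sum (f := fun i => ((k i : ℤ) : ℝ) ^ 2) (fun i _ => sq_nonneg _)
        (Finset.mem_univ j)
    linarith
  have e : ‖(Dop h1 V j u).v k‖ ^ 2 = (2 * Real.pi) ^ 2 * (((k j : ℤ) : ℝ) ^ 2 * ‖u.v k‖ ^ 2) := by
    have : (Dop h1 V j u).v k = (2 * (Real.pi : ℂ) * Complex.I * ((k j : ℤ) : ℂ)) • u.v k := rfl
    rw [this, norm_smul, norm_mul, norm_mul, norm_mul, Complex.norm_I, Complex.norm_ofNat,
      Complex.norm_real, Real.norm_of_nonneg Real.pi_pos.le, Complex.norm_intCast]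
    rw [mul_one, mul_pow, mul_pow, sq_abs]
    ring
  rw [e]
  have z0 : Lam A k ^ (2 * (0 : ℤ)) = 1 := by simp
  have z1 : Lam A k ^ (2 * (1 : ℤ)) = Lam A k ^ 2 := by norm_cast
  rw [z0, z1, one_mul]
  have := mul_le_mul_of_nonneg_right hk (sq_nonneg ‖u.v k‖)
  exact mul_le_mul_of_nonneg_left this (by positivity)

theorem t_hn (h1 : A1Stmt) {A t : ℝ} (hA : 1 ≤ A) (ht : 1 ≤ t) (htA : t ^ 2 ≤ A) (u : RT V) :
    t * hn A 0 u.v ≤ hn A 1 u.v := by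
  have h := hn_le_of_pt h1 hA (c := t⁻¹) (by positivity) 0 1 u u fun k => by
    have z0 : Lam A k ^ (2 * (0 : ℤ)) = 1 := by simp
    have z1 : Lam A k ^ (2 * (1 : ℤ)) = Lam A k ^ 2 := by norm_cast
    rw [z0, z1, one_mul, Lam_sq hA]
    have : 0 ≤ sq4 k := Finset.sum_nonneg fun i _ => sq_nonneg _
    have h2 : 1 ≤ (t⁻¹) ^ 2 * (A + sq4 k) := by
      rw [inv_pow, inv_mul_eq_div, le_div_iff₀ (by positivity)]
      linarith
    nlinarith [sq_nonneg ‖u.v k‖]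
  have ht0 : 0 < t := by linarith
  calc t * hn A 0 u.v ≤ t * (t⁻¹ * hn A 1 u.v) := mul_le_mul_of_nonneg_left h ht0.le
    _ = hn A 1 u.v := by rw [← mul_assoc, mul_inv_cancel₀ ht0.ne', one_mul]

theorem hn_C (h5 : A5Stmt) (h1 : A1Stmt) (s : ℤ) {T : Module.End ℂ (RT V)} (hT : IsC h1 T) :
    ∃ C : ℝ, 0 ≤ C ∧ ∀ A : ℝ, 1 ≤ A → ∀ w : RT V, hn A s (T w).v ≤ C * hn A s w.v := by
  obtain ⟨M, rfl⟩ := hT
  obtain ⟨C, hC, h⟩ := h5.1 V s M.v M.r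
  exact ⟨C, hC, fun A hA w => h A hA w.v w.r⟩

theorem ip_le (h1 : A1Stmt) (h3 : A3Stmt) {A : ℝ} (hA : 1 ≤ A) (v w : RT V) :
    ‖ipL h1 w v‖ ≤ hn A 0 v.v * hn A 0 w.v := by
  have := h3.2.2.2.2.1 V A 0 v.v w.v hA v.r w.r
  simpa [ipL_def] using this

/-- adjoint of a scalar multiplication. -/
theorem ip_S (h1 : A1Stmt) (h3 : A3Stmt) (a a' : RT ℂ) (ha : a'.v = stS a.v) (v w : RT V) :
    ipL h1 w (Sop h1 V a v) = ipL h1 (Sop h1 V a' w) v := by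
  rw [ipL_def, ipL_def, Sop_val, Sop_val, ha]
  exact h3.1 V a.v v.v w.v a.r v.r w.r

/-- the pairing of a field. -/
theorem ip_X (h1 : A1Stmt) (h3 : A3Stmt) (h5 : A5Stmt) (c : Fin 4 → RT ℂ) :
    ∃ C : ℝ, 0 ≤ C ∧ ∀ A : ℝ, 1 ≤ A → ∀ v w : RT V,
      ‖ipL h1 w (Xop h1 V c v)‖ ≤ C * (hn A 0 v.v * hn A 1 w.v) := by
  have hex : ∀ j, ∃ C : ℝ, 0 ≤ C ∧ ∀ A : ℝ, 1 ≤ A → ∀ w : RT V,
      hn A 1 (Sop h1 V (RT.mk (stS (c j).v) (h1.2.2.2.1 _ (c j).r)) w).v ≤ C * hn A 1 w.v :=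
    fun j => hn_C h5 h1 1 (isC_S h1 _)
  choose C hC0 hC using hex
  refine ⟨∑ j, 2 * Real.pi * C j, Finset.sum_nonneg fun j _ => by
    have := hC0 j; positivity, fun A hA v w => ?_⟩
  rw [Xop_apply, map_sum, Finset.sum_mul]
  refine (norm_sum_le _ _).trans (Finset.sum_le_sum fun j _ => ?_)
  rw [ip_S h1 h3 (c j) (RT.mk (stS (c j).v) (h1.2.2.2.1 _ (c j).r)) rfl]
  set u := Sop h1 V (RT.mk (stS (c j).v) (h1.2.2.2.1 _ (c j).r)) w with hu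
  have e : ipL h1 u (Dop h1 V j v) = -ipL h1 (Dop h1 V j u) v :=
    h3.2.2.1 V j v.v u.v v.r u.r
  rw [e, norm_neg]
  calc ‖ipL h1 (Dop h1 V j u) v‖ ≤ hn A 0 v.v * hn A 0 (Dop h1 V j u).v := ip_le h1 h3 hA _ _
    _ ≤ hn A 0 v.v * ((2 * Real.pi) * (C j * hn A 1 w.v)) := by
        refine mul_le_mul_of_nonneg_left ?_ (hn_nonneg _ _ _)
        refine (hn_D h1 hA j u).trans ?_
        exact mul_le_mul_of_nonneg_left (hC j A hA w) (by positivity)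
    _ = 2 * Real.pi * C j * (hn A 0 v.v * hn A 1 w.v) := by ring

end pairing

theorem a8_arith {n q p G X C1 C2 Ca Ca' Cp Cp2 Cz t c0 r1 r2 r3 r4 r5 r6 r7 r8 : ℝ}
    (hn0 : 0 ≤ n) (hq0 : 0 ≤ q) (hp0 : 0 ≤ p) (hG0 : 0 ≤ G) (hX0 : 0 ≤ X) (hC1 : 0 ≤ C1)
    (hC2 : 0 ≤ C2) (hCa : 0 ≤ Ca) (hCa' : 0 ≤ Ca') (hCp : 0 ≤ Cp) (hCp2 : 0 ≤ Cp2)
    (hCz : 0 ≤ Cz) (ht0 : 0 ≤ t)
    (main : q ^ 2 - p ^ 2 = r1 + r3 + r4 + t / 2 * (2 * c0 * n ^ 2 + r5 + r6 + r7) - r2 + r8)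
    (b1 : |r1| ≤ C1 * (n * G)) (b2 : |r2| ≤ C2 * (n * X)) (b3 : |r3| ≤ Ca * q * n)
    (b4 : |r4| ≤ Ca' * p * n) (b5 : 0 ≤ r5) (b6 : t * |r6| ≤ Cp * (n * G))
    (b7 : t * |r7| ≤ Cp2 * (n * X)) (b8 : |r8| ≤ Cz * n * n) :
    t * c0 * n ^ 2 ≤ 2 * q ^ 2 + (Ca ^ 2 + Ca' ^ 2 + Cz + C1 + Cp + C2 + Cp2) * n ^ 2
      + (Ca ^ 2 + Ca' ^ 2 + Cz + C1 + Cp + C2 + Cp2) * n * (G + X) := by
  have a1 := neg_abs_le r1
  have a2 := le_abs_self r2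
  have a3 := neg_abs_le r3
  have a4 := neg_abs_le r4
  have a8 := neg_abs_le r8
  have c6 : -(Cp * (n * G)) ≤ t * r6 := by
    have := mul_le_mul_of_nonneg_left (neg_abs_le r6) ht0
    linarith
  have c7 : -(Cp2 * (n * X)) ≤ t * r7 := by
    have := mul_le_mul_of_nonneg_left (neg_abs_le r7) ht0
    linarith
  have c5 := mul_nonneg ht0 b5
  have y1 : Ca * q * n ≤ q ^ 2 + Ca ^ 2 * n ^ 2 := by
    nlinarith [sq_nonneg (q - Ca * n), sq_nonneg q, sq_nonneg (Ca * n)]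
  have y2 : Ca' * p * n ≤ p ^ 2 + Ca' ^ 2 * n ^ 2 := by
    nlinarith [sq_nonneg (p - Ca' * n), sq_nonneg p, sq_nonneg (Ca' * n)]
  have nG : 0 ≤ n * G := mul_nonneg hn0 hG0
  have nX : 0 ≤ n * X := mul_nonneg hn0 hX0
  have z1 : 0 ≤ C1 * (n * X) := mul_nonneg hC1 nX
  have z2 : 0 ≤ C2 * (n * G) := mul_nonneg hC2 nG
  have z3 : 0 ≤ Cp * (n * X) := mul_nonneg hCp nX
  have z4 : 0 ≤ Cp2 * (n * G) := mul_nonneg hCp2 nG
  have z5 : 0 ≤ Cp * (n * G) := mul_nonneg hCp nG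
  have z6 : 0 ≤ Cp2 * (n * X) := mul_nonneg hCp2 nX
  have z7 : 0 ≤ (Ca ^ 2 + Ca' ^ 2 + Cz) * (n * G) := by positivity
  have z8 : 0 ≤ (Ca ^ 2 + Ca' ^ 2 + Cz) * (n * X) := by positivity
  have z9 : 0 ≤ (C1 + Cp + C2 + Cp2) * n ^ 2 := by positivity
  have e : t * c0 * n ^ 2 = q ^ 2 - p ^ 2 - r1 - r3 - r4 - t * r5 / 2 - t * r6 / 2
      - t * r7 / 2 + r2 - r8 := by
    linarith
  rw [e]
  have f : (Ca ^ 2 + Ca' ^ 2 + Cz + C1 + Cp + C2 + Cp2) * n * (G + X)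
      = (Ca ^ 2 + Ca' ^ 2 + Cz) * (n * G) + (Ca ^ 2 + Ca' ^ 2 + Cz) * (n * X)
        + C1 * (n * G) + C1 * (n * X) + Cp * (n * G) + Cp * (n * X) + C2 * (n * G)
        + C2 * (n * X) + Cp2 * (n * G) + Cp2 * (n * X) := by ring
  rw [f]
  have g : (Ca ^ 2 + Ca' ^ 2 + Cz + C1 + Cp + C2 + Cp2) * n ^ 2
      = Ca ^ 2 * n ^ 2 + Ca' ^ 2 * n ^ 2 + Cz * n * n + (C1 + Cp + C2 + Cp2) * n ^ 2 := by ring
  rw [g]
  linarith

theorem a8 (h1 : A1Stmt) (h2 : A2Stmt) (h3 : A3Stmt) (h5 : A5Stmt) (_h7 : A7Stmt) : A8Stmt := by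
  intro N D

  obtain ⟨Z, cZ, hZ⟩ := a7_op h1 D h2
  obtain ⟨C1, hC1, B1⟩ := ip_X (V := EuclideanSpace ℂ (Fin N)) h1 h3 h5 (bτ D)
  obtain ⟨C2, hC2, B2⟩ := ip_X (V := EuclideanSpace ℂ (Fin N)) h1 h3 h5 (be D)
  obtain ⟨Ca, hCa, Ba⟩ := hn_C (V := EuclideanSpace ℂ (Fin N)) h5 h1 0 (isC_S h1 (bα D))
  obtain ⟨Ca', hCa', Ba'⟩ := hn_C (V := EuclideanSpace ℂ (Fin N)) h5 h1 0
    (isC_S h1 (bα' h1 D))
  obtain ⟨Cp, hCp, Bp⟩ := hn_C (V := EuclideanSpace ℂ (Fin N)) h5 h1 0 (isC_S h1 (bp1 D))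
  obtain ⟨Cp2, hCp2, Bp2⟩ := hn_C (V := EuclideanSpace ℂ (Fin N)) h5 h1 0 (isC_S h1 (bp2 D))
  obtain ⟨Cz, hCz, Bz⟩ := hn_C (V := EuclideanSpace ℂ (Fin N)) h5 h1 0 cZ
  refine ⟨Ca ^ 2 + Ca' ^ 2 + Cz + C1 + Cp + C2 + Cp2, by positivity, ?_⟩
  intro t A ht htA w0 hw0
  have hA : 1 ≤ A := by nlinarith
  obtain ⟨w, hw⟩ : ∃ w : RT (EuclideanSpace ℂ (Fin N)), w.v = w0 := ⟨RT.mk w0 hw0, rfl⟩
  rw [← hw]
  have eQs : D.Qs t w.v = (bQs h1 D t w).v := (bQs_val h1 D t w).symm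
  have eγ : scv D.γ w.v = (Sop h1 _ (bγ D) w).v := rfl
  have eχ : scv D.χ w.v = (Sop h1 _ (bχ D) w).v := rfl
  rw [eQs, eγ, eχ]
  set n := hn A 0 w.v with hn_def
  set q := hn A 0 (bQs h1 D t w).v with hq
  set p := hn A 0 (bQ h1 D t w).v with hp
  set G := hn A 1 (Sop h1 _ (bγ D) w).v with hG
  set X := hn A 1 (Sop h1 _ (bχ D) w).v with hX
  have hn0 : 0 ≤ n := hn_nonneg _ _ _
  have hq0 : 0 ≤ q := hn_nonneg _ _ _
  have hp0 : 0 ≤ p := hn_nonneg _ _ _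
  have hG0 : 0 ≤ G := hn_nonneg _ _ _
  have hX0 : 0 ≤ X := hn_nonneg _ _ _
  -- squares
  have sq : ∀ u : RT (EuclideanSpace ℂ (Fin N)), (ipL h1 u u).re = hn A 0 u.v ^ 2 := by
    intro u
    have := h3.2.2.2.2.2.1 (EuclideanSpace ℂ (Fin N)) A u.v hA u.r
    rw [ipL_def, this, Complex.ofReal_re]
  have adj : ∀ v u : RT (EuclideanSpace ℂ (Fin N)),
      ipL h1 u (bQ h1 D t v) = ipL h1 (bQs h1 D t u) v := by
    intro v u
    rw [ipL_def, ipL_def, bQ_val, bQs_val]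
    exact (h3.2.2.2.2.2.2 N D t v.v u.v v.r u.r).2.2
  have main : q ^ 2 - p ^ 2
      = (ipL h1 w ((bQ h1 D t * bQs h1 D t - bQs h1 D t * bQ h1 D t :
        Module.End ℂ (RT (EuclideanSpace ℂ (Fin N)))) w)).re := by
    have e : (bQ h1 D t * bQs h1 D t - bQs h1 D t * bQ h1 D t :
        Module.End ℂ (RT (EuclideanSpace ℂ (Fin N)))) w
        = bQ h1 D t (bQs h1 D t w) - bQs h1 D t (bQ h1 D t w) := rfl
    rw [e, map_sub, Complex.sub_re, adj, sq, ip_re_symm h1 (bQs h1 D t (bQ h1 D t w)) w,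
      ← adj, sq]
  rw [hZ t] at main
  have e2 : (((Sop h1 _ (bγ D) * Xop h1 _ (bτ D)
        + Sop h1 _ (bα D) * bQs h1 D t
        + Sop h1 _ (bα' h1 D) * bQ h1 D t
        + ((t / 2 : ℝ) : ℂ) • ((2 * (D.c0 : ℂ)) • (1 : Module.End ℂ _)
          + Sop h1 _ (bβ D) * Sop h1 _ (bβ' h1 D)
          + Sop h1 _ (bγ D) * Sop h1 _ (bp1 D)
          + Sop h1 _ (bχ D) * Sop h1 _ (bp2 D))
        - Sop h1 _ (bχ D) * Xop h1 _ (be D) + Z :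
          Module.End ℂ (RT (EuclideanSpace ℂ (Fin N))))) w)
      = Sop h1 _ (bγ D) (Xop h1 _ (bτ D) w)
        + Sop h1 _ (bα D) (bQs h1 D t w)
        + Sop h1 _ (bα' h1 D) (bQ h1 D t w)
        + ((t / 2 : ℝ) : ℂ) • (((2 * D.c0 : ℝ) : ℂ) • w
          + Sop h1 _ (bβ D) (Sop h1 _ (bβ' h1 D) w)
          + Sop h1 _ (bγ D) (Sop h1 _ (bp1 D) w)
          + Sop h1 _ (bχ D) (Sop h1 _ (bp2 D) w))
        - Sop h1 _ (bχ D) (Xop h1 _ (be D) w) + Z w := by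
    rw [Complex.ofReal_mul, Complex.ofReal_ofNat]
    rfl
  rw [e2] at main
  simp only [map_add, map_sub, Complex.add_re, Complex.sub_re, ipL_smul_re] at main
  rw [sq w] at main
  -- bounds
  have reb : ∀ z : ℂ, |z.re| ≤ ‖z‖ := Complex.abs_re_le_norm
  have b1 : |(ipL h1 w (Sop h1 _ (bγ D) (Xop h1 _ (bτ D) w))).re| ≤ C1 * (n * G) := by
    refine (reb _).trans ?_
    rw [ip_S h1 h3 (bγ D) (bγ D) D.sγ.symm]
    exact B1 A hA w _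
  have b2 : |(ipL h1 w (Sop h1 _ (bχ D) (Xop h1 _ (be D) w))).re| ≤ C2 * (n * X) := by
    refine (reb _).trans ?_
    rw [ip_S h1 h3 (bχ D) (bχ D) D.sχ.symm]
    exact B2 A hA w _
  have b3 : |(ipL h1 w (Sop h1 _ (bα D) (bQs h1 D t w))).re| ≤ Ca * q * n := by
    refine (reb _).trans ((ip_le h1 h3 hA _ _).trans ?_)
    exact mul_le_mul_of_nonneg_right (Ba A hA _) hn0
  have b4 : |(ipL h1 w (Sop h1 _ (bα' h1 D) (bQ h1 D t w))).re| ≤ Ca' * p * n := by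
    refine (reb _).trans ((ip_le h1 h3 hA _ _).trans ?_)
    exact mul_le_mul_of_nonneg_right (Ba' A hA _) hn0
  have b5 : 0 ≤ (ipL h1 w (Sop h1 _ (bβ D) (Sop h1 _ (bβ' h1 D) w))).re := by
    rw [ip_S h1 h3 (bβ D) (bβ' h1 D) rfl, sq]
    positivity
  have b6 : t * |(ipL h1 w (Sop h1 _ (bγ D) (Sop h1 _ (bp1 D) w))).re| ≤ Cp * (n * G) := by
    have : |(ipL h1 w (Sop h1 _ (bγ D) (Sop h1 _ (bp1 D) w))).re|
        ≤ Cp * n * hn A 0 (Sop h1 _ (bγ D) w).v := by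
      refine (reb _).trans ?_
      rw [ip_S h1 h3 (bγ D) (bγ D) D.sγ.symm]
      refine (ip_le h1 h3 hA _ _).trans ?_
      exact mul_le_mul_of_nonneg_right (Bp A hA _) (hn_nonneg _ _ _)
    have h := t_hn h1 hA ht htA (Sop h1 _ (bγ D) w)
    have ht0 : 0 ≤ t := by linarith
    calc t * |(ipL h1 w (Sop h1 _ (bγ D) (Sop h1 _ (bp1 D) w))).re|
        ≤ t * (Cp * n * hn A 0 (Sop h1 _ (bγ D) w).v) := mul_le_mul_of_nonneg_left this ht0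
      _ = (Cp * n) * (t * hn A 0 (Sop h1 _ (bγ D) w).v) := by ring
      _ ≤ (Cp * n) * G := mul_le_mul_of_nonneg_left h (by positivity)
      _ = Cp * (n * G) := by ring
  have b7 : t * |(ipL h1 w (Sop h1 _ (bχ D) (Sop h1 _ (bp2 D) w))).re| ≤ Cp2 * (n * X) := by
    have : |(ipL h1 w (Sop h1 _ (bχ D) (Sop h1 _ (bp2 D) w))).re|
        ≤ Cp2 * n * hn A 0 (Sop h1 _ (bχ D) w).v := by
      refine (reb _).trans ?_
      rw [ip_S h1 h3 (bχ D) (bχ D) D.sχ.symm]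
      refine (ip_le h1 h3 hA _ _).trans ?_
      exact mul_le_mul_of_nonneg_right (Bp2 A hA _) (hn_nonneg _ _ _)
    have h := t_hn h1 hA ht htA (Sop h1 _ (bχ D) w)
    have ht0 : 0 ≤ t := by linarith
    calc t * |(ipL h1 w (Sop h1 _ (bχ D) (Sop h1 _ (bp2 D) w))).re|
        ≤ t * (Cp2 * n * hn A 0 (Sop h1 _ (bχ D) w).v) := mul_le_mul_of_nonneg_left this ht0
      _ = (Cp2 * n) * (t * hn A 0 (Sop h1 _ (bχ D) w).v) := by ring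
      _ ≤ (Cp2 * n) * X := mul_le_mul_of_nonneg_left h (by positivity)
      _ = Cp2 * (n * X) := by ring
  have b8 : |(ipL h1 w (Z w)).re| ≤ Cz * n * n := by
    refine (reb _).trans ((ip_le h1 h3 hA _ _).trans ?_)
    exact mul_le_mul_of_nonneg_right (Bz A hA _) hn0
  have ht0 : 0 ≤ t := by linarith
  exact a8_arith hn0 hq0 hp0 hG0 hX0 hC1 hC2 hCa hCa' hCp hCp2 hCz ht0 main b1 b2 b3 b4 b5 b6
    b7 b8

end Pool.Agent.AK.H39
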